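import Mathlib

/-!
# Compatible straightening laws for disjoint unions of chains

If the finite poset `P` is a disjoint union of chains, then all compatible monomial algebras with
straightening laws on `J(P)` have the straightening relations of `K[O(P)]`, which are also those of
`K[C(P)]` and `K[C(P*)]`.

Proof idea.  Let `A` be a union of components of `P` and `B` its complement.  Let `w I` be the
exponent vector of the monomial of the poset ideal `I`.  For `L ⊆ B` the product of `A` and `L`
straightens to the product of `∅` and `A ∪ f L` with `L ⊆ f L ⊆ B`; as `f` is injective and increasing,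
`f L = L`.  For `I ⊆ A` and `L ⊆ B` one straightens `I ∪ L` with `B` and finds `I' ⊇ I`, `L' ⊆ L` such
that `w (I ∪ L) + w ∅ = w I' + w L'`; then `I' = I`, and `L' = L` by the same injectivity argument.
So `w` is additive along components, and the relations follow.
-/

set_option autoImplicit false

namespace Pool.Agent.Helper30K9.Withdrawn.UniqueCompatible

open MvPolynomial

/-- The poset `P` is a finite disjoint union of chains. -/
def IsUnionOfChains (P : Type) [PartialOrder P] : Prop :=
  ∃ (r : ℕ) (l : Fin r → ℕ), Nonempty (P ≃o Σ i : Fin r, Fin (l i))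

/-- The multichains of `L`: the finite multisets of pairwise comparable elements. They index the
standard monomials. -/
def Multichain (L : Type) [PartialOrder L] : Type :=
  {s : Multiset L // ∀ a ∈ s, ∀ b ∈ s, a ≤ b ∨ b ≤ a}

/-- The standard monomial of a multichain. -/
def std {L R : Type} [PartialOrder L] [CommRing R] (φ : L → R) (s : Multichain L) : R :=
  (s.1.map φ).prod

/-- `R` is an algebra with straightening laws on `L` over `K` via `φ`: `φ` is injective, the standard
monomials form a basis of the `K`-vector space `R`, and every standard monomial occurring in the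
expansion of `φ α * φ β`, `α` and `β` incomparable, has a factor `φ γ` with `γ ≤ α` and `γ ≤ β`. -/
structure IsASL (K : Type) [Field K] {L R : Type} [PartialOrder L] [CommRing R] [Algebra K R]
    (φ : L → R) : Prop where
  injective : Function.Injective φ
  linearIndependent : LinearIndependent K (std φ)
  span_eq_top : Submodule.span K (Set.range (std φ)) = ⊤
  straightening : ∀ α β : L, ¬ α ≤ β → ¬ β ≤ α → ∀ r : Multichain L →₀ K,
    φ α * φ β = Finsupp.linearCombination K (std φ) r →
      ∀ s ∈ r.support, ∃ γ ∈ s.1, γ ≤ α ∧ γ ≤ β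

section Rings

variable (K : Type) [Field K] {P : Type} [PartialOrder P] {V : Type}

/-- The monomial `w_I t` in the polynomial ring `K[x_v, t]`; the variable `t` is `X none`. -/
noncomputable def mon (w : LowerSet P → (V →₀ ℕ)) (I : LowerSet P) : MvPolynomial (Option V) K :=
  monomial ((w I).embDomain Function.Embedding.some + Finsupp.single none 1) 1

/-- The toric ring `K[Ω]` generated by the monomials `w_I t`. -/
noncomputable def toricRing (w : LowerSet P → (V →₀ ℕ)) :
    Subalgebra K (MvPolynomial (Option V) K) :=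
  Algebra.adjoin K (Set.range (mon K w))

/-- The map `φ` from `J(P)` to `K[Ω]`. -/
noncomputable def gen (w : LowerSet P → (V →₀ ℕ)) (I : LowerSet P) : toricRing K w :=
  ⟨mon K w I, Algebra.subset_adjoin ⟨I, rfl⟩⟩

/-- `K[Ω]` is a compatible algebra with straightening laws on `J(P)`: it is an algebra with
straightening laws via `I ↦ w_I t`, and all straightening relations read
`φ(I) φ(I') = φ(J) φ(J')` with `J ⊆ I ∩ I'` and `J' ⊇ I ∪ I'`. -/
def Compatible (w : LowerSet P → (V →₀ ℕ)) : Prop :=
  IsASL K (gen K w) ∧ ∀ I I' : LowerSet P, ¬ I ≤ I' → ¬ I' ≤ I →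
    ∃ J J' : LowerSet P, J ≤ I ⊓ I' ∧ I ⊔ I' ≤ J' ∧
      gen K w I * gen K w I' = gen K w J * gen K w J'

/-- The straightening relations `φ(I) φ(I') = φ(J) φ(J')` (`I`, `I'` incomparable, `J ⊆ J'`) of two
toric rings coincide. -/
def SameRelations {V' : Type} (w : LowerSet P → (V →₀ ℕ)) (w' : LowerSet P → (V' →₀ ℕ)) : Prop :=
  ∀ I I' : LowerSet P, ¬ I ≤ I' → ¬ I' ≤ I → ∀ J J' : LowerSet P, J ≤ J' →
    (gen K w I * gen K w I' = gen K w J * gen K w J' ↔
      gen K w' I * gen K w' I' = gen K w' J * gen K w' J')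

end Rings

section Standard

variable (P : Type) [PartialOrder P] [Fintype P]

open Classical in
/-- The exponent vector of the product of the variables `x_p`, `p ∈ W`. -/
noncomputable def ind (W : Set P) : P →₀ ℕ :=
  Finsupp.equivFunOnFinite.symm (fun p => if p ∈ W then 1 else 0)

/-- The monomials of the toric ring `K[O(P)]` of the order polytope: `x(I)`. -/
noncomputable def wO (I : LowerSet P) : P →₀ ℕ := ind P (I : Set P)

/-- The monomials of the toric ring `K[C(P)]` of the chain polytope: `x(max I)`. -/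
noncomputable def wC (I : LowerSet P) : P →₀ ℕ := ind P {p | Maximal (· ∈ (I : Set P)) p}

/-- The monomials of the toric ring `K[C(P*)]` of the chain polytope of the dual poset:
`x(min (P ∖ I))`. -/
noncomputable def wC' (I : LowerSet P) : P →₀ ℕ := ind P {p | Minimal (· ∉ (I : Set P)) p}

end Standard

/-! ### Injective increasing maps -/

section Core

theorem fix_up {α : Type} [PartialOrder α] [Finite α] (S : Set α) (f : α → α)
    (hf : ∀ x ∈ S, f x ∈ S) (hi : ∀ x ∈ S, ∀ y ∈ S, f x = f y → x = y)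
    (hle : ∀ x ∈ S, x ≤ f x) : ∀ x ∈ S, f x = x := by
  intro x
  induction x using (Finite.to_wellFoundedGT (α := α)).wf.induction with
  | _ x ih =>
    intro hx
    by_contra hne
    have hlt : x < f x := lt_of_le_of_ne (hle x hx) (Ne.symm hne)
    exact hne (hi _ (hf x hx) x hx (ih (f x) hlt (hf x hx)))

theorem fix_down {α : Type} [PartialOrder α] [Finite α] (S : Set α) (f : α → α)
    (hf : ∀ x ∈ S, f x ∈ S) (hi : ∀ x ∈ S, ∀ y ∈ S, f x = f y → x = y)
    (hle : ∀ x ∈ S, f x ≤ x) : ∀ x ∈ S, f x = x := by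
  intro x
  induction x using (Finite.to_wellFoundedLT (α := α)).wf.induction with
  | _ x ih =>
    intro hx
    by_contra hne
    have hlt : f x < x := lt_of_le_of_ne (hle x hx) hne
    exact hne (hi _ (hf x hx) x hx (ih (f x) hlt (hf x hx)))

variable {D M : Type} [DistribLattice D] [BoundedOrder D] [Finite D] [AddCommMonoid M] [IsCancelAdd M]
  {w : D → M}

theorem step1 (inj : Function.Injective w)
    (h : ∀ I I' : D, ∃ J J' : D, J ≤ I ⊓ I' ∧ I ⊔ I' ≤ J' ∧ w I + w I' = w J + w J')
    {A B : D} (hAB : A ⊓ B = ⊥) (hAB' : A ⊔ B = ⊤) {L : D} (hL : L ≤ B) :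
    w A + w L = w ⊥ + w (A ⊔ L) := by
  have h' : ∀ L : D, ∃ J' : D, L ≤ B → A ⊔ L ≤ J' ∧ w A + w L = w ⊥ + w J' := by
    intro L
    obtain ⟨J, J', h1, h2, h3⟩ := h A L
    refine ⟨J', fun hL => ⟨h2, ?_⟩⟩
    have : J = ⊥ := le_bot_iff.1 (h1.trans (hAB ▸ inf_le_inf_left A hL))
    rw [h3, this]
  choose F hF using h'
  have hFA : ∀ L, L ≤ B → F L = A ⊔ (F L ⊓ B) := by
    intro L hL
    have h1 : A ≤ F L := le_sup_left.trans (hF L hL).1
    calc F L = F L ⊓ (A ⊔ B) := by rw [hAB', inf_top_eq]
      _ = (F L ⊓ A) ⊔ (F L ⊓ B) := inf_sup_left _ _ _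
      _ = A ⊔ (F L ⊓ B) := by rw [inf_eq_right.2 h1]
  have key := fix_up (Set.Iic B) (fun L => F L ⊓ B) (fun L _ => inf_le_right)
    (fun L1 h1 L2 h2 he => by
      have e : F L1 = F L2 := by
        rw [hFA L1 h1, hFA L2 h2]
        exact congrArg _ he
      have h3 := (hF L1 h1).2
      have h4 := (hF L2 h2).2
      rw [e, ← h4] at h3
      exact inj (add_left_cancel h3))
    (fun L hL => le_inf (le_sup_right.trans (hF L hL).1) hL) L hL
  have h5 := (hF L hL).2
  rw [hFA L hL] at h5
  rw [key] at h5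
  exact h5

theorem additive (inj : Function.Injective w)
    (h : ∀ I I' : D, ∃ J J' : D, J ≤ I ⊓ I' ∧ I ⊔ I' ≤ J' ∧ w I + w I' = w J + w J')
    {A B : D} (hAB : A ⊓ B = ⊥) (hAB' : A ⊔ B = ⊤) {I L : D} (hI : I ≤ A) (hL : L ≤ B) :
    w (I ⊔ L) + w ⊥ = w I + w L := by
  have hBA : B ⊓ A = ⊥ := inf_comm A B ▸ hAB
  have hBA' : B ⊔ A = ⊤ := sup_comm A B ▸ hAB'
  have meetA : ∀ {I L : D}, I ≤ A → L ≤ B → (I ⊔ L) ⊓ A = I := by
    intro I L hI hL
    have e : L ⊓ A = ⊥ := le_bot_iff.1 ((inf_le_inf_right A hL).trans hBA.le)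
    rw [inf_sup_right, inf_eq_left.2 hI, e, sup_bot_eq]
  have meetB : ∀ {I L : D}, I ≤ A → L ≤ B → (I ⊔ L) ⊓ B = L := by
    intro I L hI hL
    have e : I ⊓ B = ⊥ := le_bot_iff.1 ((inf_le_inf_right B hI).trans hAB.le)
    rw [inf_sup_right, inf_eq_left.2 hL, e, bot_sup_eq]
  have h' : ∀ L : D, ∃ J : D, L ≤ B → J ≤ L ∧ w (I ⊔ L) + w ⊥ = w J + w I := by
    intro L
    by_cases hL : L ≤ B
    · obtain ⟨J1, J2, h1, h2, h3⟩ := h (I ⊔ L) B
      rw [meetB hI hL] at h1
      have hB2 : B ≤ J2 := le_sup_right.trans h2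
      have hI2 : I ≤ J2 ⊓ A := le_inf (le_sup_left.trans (le_sup_left.trans h2)) hI
      have hJ2 : J2 = B ⊔ (J2 ⊓ A) := by
        calc J2 = J2 ⊓ (B ⊔ A) := by rw [hBA', inf_top_eq]
          _ = (J2 ⊓ B) ⊔ (J2 ⊓ A) := inf_sup_left _ _ _
          _ = B ⊔ (J2 ⊓ A) := by rw [inf_eq_right.2 hB2]
      have h4 := step1 inj h hBA hBA' (L := J2 ⊓ A) inf_le_right
      rw [← hJ2] at h4
      have h5 : w (I ⊔ L) + w ⊥ = w J1 + w (J2 ⊓ A) := by
        have : w B + (w (I ⊔ L) + w ⊥) = w B + (w J1 + w (J2 ⊓ A)) := by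
          calc w B + (w (I ⊔ L) + w ⊥) = (w (I ⊔ L) + w B) + w ⊥ := by abel
            _ = w J1 + w J2 + w ⊥ := by rw [h3]
            _ = w J1 + (w ⊥ + w J2) := by abel
            _ = w J1 + (w B + w (J2 ⊓ A)) := by rw [h4]
            _ = w B + (w J1 + w (J2 ⊓ A)) := by abel
        exact add_left_cancel this
      obtain ⟨J3, J4, h6, h7, h8⟩ := h (J2 ⊓ A) J1
      have h9 : J3 = ⊥ := by
        refine le_bot_iff.1 (h6.trans ?_)
        rw [← hAB]
        exact inf_le_inf inf_le_right (h1.trans hL)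
      have h10 : w (I ⊔ L) = w J4 := by
        have : w ⊥ + w (I ⊔ L) = w ⊥ + w J4 := by
          rw [add_comm, h5, add_comm, h8, h9]
        exact add_left_cancel this
      have h11 : I ⊔ L = J4 := inj h10
      have h12 : J2 ⊓ A ≤ I := by
        have h13 : J2 ⊓ A ≤ I ⊔ L := h11 ▸ (le_sup_left.trans h7)
        calc J2 ⊓ A ≤ (I ⊔ L) ⊓ A := le_inf h13 inf_le_right
          _ = I := meetA hI hL
      have h14 : J2 ⊓ A = I := le_antisymm h12 hI2
      refine ⟨J1, fun _ => ⟨h1, ?_⟩⟩
      rw [h5, h14]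
    · exact ⟨L, fun h => absurd h hL⟩
  choose F hF using h'
  have key := fix_down (Set.Iic B) F (fun L hL => (hF L hL).1.trans hL)
    (fun L1 h1 L2 h2 he => by
      have h3 := (hF L1 h1).2
      have h4 := (hF L2 h2).2
      rw [he, ← h4] at h3
      have h5 : I ⊔ L1 = I ⊔ L2 := inj (add_right_cancel h3)
      have h6 := meetB hI h1
      have h7 := meetB hI h2
      rw [← h6, h5, h7])
    (fun L hL => (hF L hL).1) L hL
  have h5 := (hF L hL).2
  rw [key] at h5
  rw [h5, add_comm]

theorem modular (inj : Function.Injective w)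
    (h : ∀ I I' : D, ∃ J J' : D, J ≤ I ⊓ I' ∧ I ⊔ I' ≤ J' ∧ w I + w I' = w J + w J')
    {A B : D} (hAB : A ⊓ B = ⊥) (hAB' : A ⊔ B = ⊤) {I I' : D} (h1 : I ⊓ A ≤ I')
    (h2 : I' ⊓ B ≤ I) : w I + w I' = w (I ⊓ I') + w (I ⊔ I') := by
  have dec : ∀ X : D, w X + w ⊥ = w (X ⊓ A) + w (X ⊓ B) := by
    intro X
    have := additive inj h hAB hAB' (I := X ⊓ A) (L := X ⊓ B) inf_le_right inf_le_right
    rwa [← inf_sup_left, hAB', inf_top_eq] at this
  have e1 : (I ⊓ I') ⊓ A = I ⊓ A := by
    apply le_antisymm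
    · exact inf_le_inf_right A inf_le_left
    · exact le_inf (le_inf inf_le_left h1) inf_le_right
  have e2 : (I ⊓ I') ⊓ B = I' ⊓ B := by
    apply le_antisymm
    · exact inf_le_inf_right B inf_le_right
    · exact le_inf (le_inf h2 inf_le_left) inf_le_right
  have e3 : (I ⊔ I') ⊓ A = I' ⊓ A := by
    rw [inf_sup_right]
    exact sup_eq_right.2 (le_inf h1 inf_le_right)
  have e4 : (I ⊔ I') ⊓ B = I ⊓ B := by
    rw [inf_sup_right]
    exact sup_eq_left.2 (le_inf h2 inf_le_right)
  have d1 := dec I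
  have d2 := dec I'
  have d3 := dec (I ⊓ I')
  have d4 := dec (I ⊔ I')
  rw [e1, e2] at d3
  rw [e3, e4] at d4
  have : (w I + w I') + (w ⊥ + w ⊥) = (w (I ⊓ I') + w (I ⊔ I')) + (w ⊥ + w ⊥) := by
    calc (w I + w I') + (w ⊥ + w ⊥) = (w I + w ⊥) + (w I' + w ⊥) := by abel
      _ = (w (I ⊓ A) + w (I ⊓ B)) + (w (I' ⊓ A) + w (I' ⊓ B)) := by rw [d1, d2]
      _ = (w (I ⊓ A) + w (I' ⊓ B)) + (w (I' ⊓ A) + w (I ⊓ B)) := by abel
      _ = (w (I ⊓ I') + w ⊥) + (w (I ⊔ I') + w ⊥) := by rw [d3, d4]
      _ = _ := by abel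
  exact add_right_cancel this

end Core

/-! ### From the rings to the exponents -/

section Glue

variable {K : Type} [Field K] {P : Type} [PartialOrder P] {V : Type}

theorem gen_mul_eq (w : LowerSet P → (V →₀ ℕ)) (I I' J J' : LowerSet P) :
    gen K w I * gen K w I' = gen K w J * gen K w J' ↔ w I + w I' = w J + w J' := by
  rw [Subtype.ext_iff]
  change mon K w I * mon K w I' = mon K w J * mon K w J' ↔ _
  unfold mon
  rw [monomial_mul, monomial_mul, one_mul]
  constructor
  · intro h
    have h1 := monomial_left_injective (one_ne_zero (α := K)) h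
    have h2 : ((w I + w I').embDomain Function.Embedding.some : Option V →₀ ℕ) =
        (w J + w J').embDomain Function.Embedding.some := by
      rw [Finsupp.embDomain_add, Finsupp.embDomain_add]
      have h3 : ((w I).embDomain Function.Embedding.some + (w I').embDomain Function.Embedding.some :
          Option V →₀ ℕ) + (Finsupp.single none 1 + Finsupp.single none 1) =
          ((w J).embDomain Function.Embedding.some + (w J').embDomain Function.Embedding.some) +
            (Finsupp.single none 1 + Finsupp.single none 1) := by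
        calc _ = ((w I).embDomain Function.Embedding.some + Finsupp.single none 1 +
              ((w I').embDomain Function.Embedding.some + Finsupp.single none 1) :
              Option V →₀ ℕ) := by abel
          _ = _ := by
            rw [h1]
            abel
      exact add_right_cancel h3
    exact Finsupp.embDomain_injective _ h2
  · intro h
    have h2 := congrArg (Finsupp.embDomain (Function.Embedding.some : V ↪ Option V)) h
    rw [Finsupp.embDomain_add, Finsupp.embDomain_add] at h2
    refine congrArg (fun e : Option V →₀ ℕ => monomial e (1 : K)) ?_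
    calc ((w I).embDomain Function.Embedding.some + Finsupp.single none 1 +
              ((w I').embDomain Function.Embedding.some + Finsupp.single none 1) :
              Option V →₀ ℕ) = ((w I).embDomain Function.Embedding.some +
                (w I').embDomain Function.Embedding.some) +
                (Finsupp.single none 1 + Finsupp.single none 1) := by abel
      _ = _ := by
        rw [h2]
        abel

/-- two-element multichains -/
def pair {L : Type} [PartialOrder L] {J J' : L} (h : J ≤ J') : Multichain L :=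
  ⟨{J, J'}, by
    intro a ha b hb
    simp only [Multiset.insert_eq_cons, Multiset.mem_cons, Multiset.mem_singleton] at ha hb
    rcases ha with rfl | rfl <;> rcases hb with rfl | rfl
    · exact Or.inl le_rfl
    · exact Or.inl h
    · exact Or.inr h
    · exact Or.inl le_rfl⟩

theorem std_pair {L R : Type} [PartialOrder L] [CommRing R] (φ : L → R) {J J' : L} (h : J ≤ J') :
    std φ (pair h) = φ J * φ J' := by
  simp [std, pair]

theorem pair_inj {L : Type} [PartialOrder L] {J J' M M' : L} (h : J ≤ J') (h' : M ≤ M')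
    (e : pair h = pair h') : J = M ∧ J' = M' := by
  have e' : ({J, J'} : Multiset L) = {M, M'} := congrArg Subtype.val e
  have m1 : J ∈ ({M, M'} : Multiset L) := e' ▸ by simp
  have m2 : J' ∈ ({M, M'} : Multiset L) := e' ▸ by simp
  have m3 : M ∈ ({J, J'} : Multiset L) := e' ▸ by simp
  have m4 : M' ∈ ({J, J'} : Multiset L) := e' ▸ by simp
  simp only [Multiset.insert_eq_cons, Multiset.mem_cons, Multiset.mem_singleton] at m1 m2 m3 m4
  constructor
  · apply le_antisymm
    · rcases m3 with m | m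
      · exact m.ge
      · rw [m]; exact h
    · rcases m1 with m | m
      · exact m.ge
      · rw [m]; exact h'
  · apply le_antisymm
    · rcases m2 with m | m
      · rw [m]; exact h'
      · exact m.le
    · rcases m4 with m | m
      · rw [m]; exact h
      · exact m.le

/-- the relation of the pair `I`, `I'` is the one of the distributive lattice -/
def Hibi (w : LowerSet P → (V →₀ ℕ)) : Prop :=
  ∀ I I' J J' : LowerSet P, J ≤ J' → (w I + w I' = w J + w J' ↔ J = I ⊓ I' ∧ J' = I ⊔ I')

theorem same_of_hibi {V' : Type} {w : LowerSet P → (V →₀ ℕ)} {w' : LowerSet P → (V' →₀ ℕ)}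
    (h : Hibi w) (h' : Hibi w') : SameRelations K w w' := by
  intro I I' _ _ J J' hJ
  rw [gen_mul_eq, gen_mul_eq, h I I' J J' hJ, h' I I' J J' hJ]

/-- comparability -/
def Comp (p q : P) : Prop := p ≤ q ∨ q ≤ p

theorem comp_trans (hP : IsUnionOfChains P) {p q r : P} (h1 : Comp p q) (h2 : Comp q r) :
    Comp p r := by
  obtain ⟨n, l, ⟨e⟩⟩ := hP
  have key : ∀ x y : P, Comp x y ↔ (e x).1 = (e y).1 := by
    intro x y
    unfold Comp
    rw [← e.le_iff_le, ← e.le_iff_le (x := y)]
    generalize e x = a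
    generalize e y = b
    obtain ⟨i, a⟩ := a
    obtain ⟨j, b⟩ := b
    constructor
    · rintro (h | h)
      · exact (Sigma.le_def.1 h).choose
      · exact (Sigma.le_def.1 h).choose.symm
    · intro h
      simp only at h
      subst h
      rcases le_total a b with h | h
      · exact Or.inl (Sigma.LE.fiber _ _ _ h)
      · exact Or.inr (Sigma.LE.fiber _ _ _ h)
  rw [key] at h1 h2 ⊢
  exact h1.trans h2

theorem comp_symm {p q : P} (h : Comp p q) : Comp q p := Or.symm h

/-- For each pair of poset ideals and each `p` one of them contains the other near `p`. -/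
theorem near (hP : IsUnionOfChains P) (I I' : LowerSet P) (p : P) :
    (∀ q, Comp p q → q ∈ I → q ∈ I') ∨ (∀ q, Comp p q → q ∈ I' → q ∈ I) := by
  by_contra hcon
  push Not at hcon
  obtain ⟨⟨q, hq, h1, h2⟩, ⟨r, hr, h3, h4⟩⟩ := hcon
  rcases comp_trans hP (comp_symm hq) hr with h | h
  · exact h2 (I'.lower h h3)
  · exact h4 (I.lower h h1)

theorem modular_chains [Finite P] (hP : IsUnionOfChains P) {w : LowerSet P → (V →₀ ℕ)}
    (inj : Function.Injective w)
    (h : ∀ I I' : LowerSet P, ∃ J J', J ≤ I ⊓ I' ∧ I ⊔ I' ≤ J' ∧ w I + w I' = w J + w J')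
    (I I' : LowerSet P) : w I + w I' = w (I ⊓ I') + w (I ⊔ I') := by
  have hclosed : ∀ p q : P, Comp p q → (∀ r, Comp p r → r ∈ I → r ∈ I') →
      (∀ r, Comp q r → r ∈ I → r ∈ I') :=
    fun p q hpq hp r hr => hp r (comp_trans hP hpq hr)
  let A : LowerSet P := ⟨{p | ∀ q, Comp p q → q ∈ I → q ∈ I'},
    fun p q hqp hp => hclosed p q (Or.inr hqp) hp⟩
  let B : LowerSet P := ⟨{p | ¬ ∀ q, Comp p q → q ∈ I → q ∈ I'},
    fun p q hqp hp hq => hp (hclosed q p (Or.inl hqp) hq)⟩
  have : Finite (LowerSet P) :=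
    Finite.of_injective (fun I : LowerSet P => (I : Set P)) SetLike.coe_injective
  have hAB : A ⊓ B = ⊥ := by
    ext p
    simp only [LowerSet.coe_inf, LowerSet.coe_bot, Set.mem_inter_iff, Set.mem_empty_iff_false,
      iff_false]
    rintro ⟨h1, h2⟩
    exact h2 h1
  have hAB' : A ⊔ B = ⊤ := by
    ext p
    simp only [LowerSet.coe_sup, LowerSet.coe_top, Set.mem_union, Set.mem_univ, iff_true]
    exact Classical.em _
  refine modular inj h hAB hAB' ?_ ?_
  · intro p hp
    have h1 : p ∈ I := hp.1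
    have h2 : ∀ q, Comp p q → q ∈ I → q ∈ I' := hp.2
    exact h2 p (Or.inl le_rfl) h1
  · intro p hp
    have h1 : p ∈ I' := hp.1
    have h2 : ¬ ∀ q, Comp p q → q ∈ I → q ∈ I' := hp.2
    rcases near hP I I' p with h3 | h3
    · exact absurd h3 h2
    · exact h3 p (Or.inl le_rfl) h1

theorem hibi_of_compatible [Finite P] (hP : IsUnionOfChains P) {w : LowerSet P → (V →₀ ℕ)}
    (h : Compatible K w) : Hibi w := by
  have inj : Function.Injective w := by
    intro I J hIJ
    apply h.1.injective
    apply Subtype.ext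
    change mon K w I = mon K w J
    unfold mon
    rw [hIJ]
  have h2 : ∀ I I' : LowerSet P, ∃ J J', J ≤ I ⊓ I' ∧ I ⊔ I' ≤ J' ∧
      w I + w I' = w J + w J' := by
    intro I I'
    by_cases h1 : I ≤ I'
    · exact ⟨I, I', le_inf le_rfl h1, sup_le h1 le_rfl, rfl⟩
    by_cases h3 : I' ≤ I
    · exact ⟨I', I, le_inf h3 le_rfl, sup_le le_rfl h3, add_comm _ _⟩
    obtain ⟨J, J', h4, h5, h6⟩ := h.2 I I' h1 h3
    exact ⟨J, J', h4, h5, (gen_mul_eq w I I' J J').1 h6⟩
  have hm := modular_chains hP inj h2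
  intro I I' J J' hJ
  constructor
  · intro he
    rw [hm I I', ← gen_mul_eq (K := K)] at he
    have hle : I ⊓ I' ≤ I ⊔ I' := inf_le_left.trans le_sup_left
    rw [← std_pair (gen K w) hle, ← std_pair (gen K w) hJ] at he
    have := pair_inj hle hJ (h.1.linearIndependent.injective he)
    exact ⟨this.1.symm, this.2.symm⟩
  · rintro ⟨rfl, rfl⟩
    exact hm I I'

end Glue

/-! ### The three standard rings -/

section Three

variable {P : Type} [PartialOrder P] [Fintype P]

omit [PartialOrder P] in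
open Classical in
theorem ind_apply (W : Set P) (p : P) : ind P W p = if p ∈ W then 1 else 0 := by
  simp [ind, Finsupp.equivFunOnFinite]

theorem conclude {I I' J J' : LowerSet P} (hJ : J ≤ J')
    (h : ∀ p, ((p ∈ I → p ∈ J') ∧ (p ∈ I' → p ∈ J') ∧ (p ∈ I → p ∈ I' → p ∈ J) ∧
      (p ∈ J' → p ∈ I ∨ p ∈ I') ∧ (p ∈ J → p ∈ I ∧ p ∈ I'))) : J = I ⊓ I' ∧ J' = I ⊔ I' := by
  constructor
  · apply le_antisymm
    · exact fun p hp => (h p).2.2.2.2 hp
    · rintro p ⟨h1, h2⟩
      exact (h p).2.2.1 h1 h2
  · apply le_antisymm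
    · exact fun p hp => (h p).2.2.2.1 hp
    · rintro p (h1 | h1)
      · exact (h p).1 h1
      · exact (h p).2.1 h1

open Classical in
theorem of_counts {I I' J J' : LowerSet P} (hJ : J ≤ J')
    (h : ∀ p, (if p ∈ I then 1 else 0) + (if p ∈ I' then 1 else 0) =
      (if p ∈ J then 1 else 0) + (if p ∈ J' then 1 else 0 : ℕ)) : J = I ⊓ I' ∧ J' = I ⊔ I' := by
  refine conclude hJ fun p => ?_
  have h1 := h p
  have h2 : p ∈ J → p ∈ J' := fun hp => hJ hp
  by_cases a : p ∈ I <;> by_cases b : p ∈ I' <;> by_cases c : p ∈ J <;> by_cases d : p ∈ J' <;>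
    simp_all

theorem hibi_O : Hibi (wO P) := by
  classical
  intro I I' J J' hJ
  constructor
  · intro h
    refine of_counts hJ fun p => ?_
    have := DFunLike.congr_fun h p
    simpa only [wO, Finsupp.add_apply, ind_apply, SetLike.mem_coe] using this
  · rintro ⟨rfl, rfl⟩
    ext p
    simp only [wO, Finsupp.add_apply, ind_apply, SetLike.mem_coe, LowerSet.mem_inf_iff,
      LowerSet.mem_sup_iff]
    by_cases a : p ∈ I <;> by_cases b : p ∈ I' <;> simp [a, b]

theorem near_inf_sup (hP : IsUnionOfChains P) (I I' : LowerSet P) (p : P) :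
    ((∀ q, Comp p q → (q ∈ I ⊓ I' ↔ q ∈ I)) ∧ (∀ q, Comp p q → (q ∈ I ⊔ I' ↔ q ∈ I'))) ∨
    ((∀ q, Comp p q → (q ∈ I ⊓ I' ↔ q ∈ I')) ∧ (∀ q, Comp p q → (q ∈ I ⊔ I' ↔ q ∈ I))) := by
  rcases near hP I I' p with h | h
  · left
    constructor
    · intro q hq
      exact ⟨fun h1 => h1.1, fun h1 => ⟨h1, h q hq h1⟩⟩
    · intro q hq
      rw [LowerSet.mem_sup_iff]
      exact ⟨fun h1 => h1.elim (h q hq) id, Or.inr⟩
  · right
    constructor
    · intro q hq
      exact ⟨fun h1 => h1.2, fun h1 => ⟨h q hq h1, h1⟩⟩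
    · intro q hq
      rw [LowerSet.mem_sup_iff]
      exact ⟨fun h1 => h1.elim id (h q hq), Or.inl⟩

theorem max_congr {S T : LowerSet P} {p : P} (h : ∀ q, Comp p q → (q ∈ S ↔ q ∈ T)) :
    Maximal (· ∈ (S : Set P)) p ↔ Maximal (· ∈ (T : Set P)) p := by
  constructor
  · rintro ⟨h1, h2⟩
    exact ⟨(h p (Or.inl le_rfl)).1 h1, fun q hq hpq => h2 ((h q (Or.inl hpq)).2 hq) hpq⟩
  · rintro ⟨h1, h2⟩
    exact ⟨(h p (Or.inl le_rfl)).2 h1, fun q hq hpq => h2 ((h q (Or.inl hpq)).1 hq) hpq⟩

theorem min_congr {S T : LowerSet P} {p : P} (h : ∀ q, Comp p q → (q ∈ S ↔ q ∈ T)) :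
    Minimal (· ∉ (S : Set P)) p ↔ Minimal (· ∉ (T : Set P)) p := by
  constructor
  · rintro ⟨h1, h2⟩
    exact ⟨fun h3 => h1 ((h p (Or.inl le_rfl)).2 h3),
      fun q hq hpq => h2 (fun h3 => hq ((h q (Or.inr hpq)).1 h3)) hpq⟩
  · rintro ⟨h1, h2⟩
    exact ⟨fun h3 => h1 ((h p (Or.inl le_rfl)).1 h3),
      fun q hq hpq => h2 (fun h3 => hq ((h q (Or.inr hpq)).2 h3)) hpq⟩

open Classical in
theorem sum_max (hP : IsUnionOfChains P) (I : LowerSet P) (p : P) :
    ∑ q with p ≤ q, wC P I q = if p ∈ I then 1 else 0 := by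
  simp only [wC, ind_apply, Set.mem_ofPred_eq]
  by_cases hp : p ∈ I
  · rw [if_pos hp]
    obtain ⟨m, hpm, hm⟩ := (Set.toFinite (I : Set P)).exists_le_maximal hp
    rw [Finset.sum_eq_single m]
    · rw [if_pos hm]
    · intro q hq hqm
      rw [if_neg]
      intro hq'
      apply hqm
      rw [Finset.mem_filter] at hq
      rcases comp_trans hP (Or.inr hq.2 : Comp q p) (Or.inl hpm : Comp p m) with h | h
      · exact le_antisymm h (hq'.2 hm.1 h)
      · exact le_antisymm (hm.2 hq'.1 h) h
    · intro hm'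
      exact absurd (Finset.mem_filter.2 ⟨Finset.mem_univ _, hpm⟩) hm'
  · rw [if_neg hp]
    refine Finset.sum_eq_zero fun q hq => ?_
    rw [if_neg]
    intro hq'
    exact hp (I.lower (Finset.mem_filter.1 hq).2 hq'.1)

open Classical in
theorem sum_min (hP : IsUnionOfChains P) (I : LowerSet P) (p : P) :
    ∑ q with q ≤ p, wC' P I q = if p ∉ I then 1 else 0 := by
  simp only [wC', ind_apply, Set.mem_ofPred_eq]
  by_cases hp : p ∈ I
  · rw [if_neg (not_not.2 hp)]
    refine Finset.sum_eq_zero fun q hq => ?_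
    rw [if_neg]
    intro hq'
    exact hq'.1 (I.lower (Finset.mem_filter.1 hq).2 hp)
  · rw [if_pos hp]
    obtain ⟨m, hpm, hm⟩ := (Set.toFinite ((I : Set P)ᶜ)).exists_le_minimal hp
    have hm' : Minimal (· ∉ (I : Set P)) m := hm
    rw [Finset.sum_eq_single m]
    · rw [if_pos hm']
    · intro q hq hqm
      rw [if_neg]
      intro hq'
      apply hqm
      rw [Finset.mem_filter] at hq
      rcases comp_trans hP (Or.inl hq.2 : Comp q p) (Or.inr hpm : Comp p m) with h | h
      · exact le_antisymm h (hm'.2 hq'.1 h)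
      · exact le_antisymm (hq'.2 hm'.1 h) h
    · intro hmm
      refine absurd ?_ hmm
      rw [Finset.mem_filter]
      exact ⟨Finset.mem_univ _, hpm⟩

theorem hibi_C (hP : IsUnionOfChains P) : Hibi (wC P) := by
  classical
  intro I I' J J' hJ
  constructor
  · intro h
    refine of_counts hJ fun p => ?_
    rw [← sum_max hP I p, ← sum_max hP I' p, ← sum_max hP J p, ← sum_max hP J' p,
      ← Finset.sum_add_distrib, ← Finset.sum_add_distrib]
    refine Finset.sum_congr rfl fun q _ => ?_
    have := DFunLike.congr_fun h q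
    simpa only [Finsupp.add_apply] using this
  · rintro ⟨rfl, rfl⟩
    ext p
    simp only [wC, Finsupp.add_apply, ind_apply, Set.mem_ofPred_eq]
    rcases near_inf_sup hP I I' p with ⟨h1, h2⟩ | ⟨h1, h2⟩
    · simp only [max_congr h1, max_congr h2]
    · simp only [max_congr h1, max_congr h2]
      exact add_comm _ _

theorem hibi_C' (hP : IsUnionOfChains P) : Hibi (wC' P) := by
  classical
  intro I I' J J' hJ
  constructor
  · intro h
    refine of_counts hJ fun p => ?_
    have h1 : (if p ∉ I then 1 else 0) + (if p ∉ I' then 1 else 0) =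
      (if p ∉ J then 1 else 0) + (if p ∉ J' then 1 else 0 : ℕ) := by
      rw [← sum_min hP I p, ← sum_min hP I' p, ← sum_min hP J p, ← sum_min hP J' p,
        ← Finset.sum_add_distrib, ← Finset.sum_add_distrib]
      refine Finset.sum_congr rfl fun q _ => ?_
      have := DFunLike.congr_fun h q
      simpa only [Finsupp.add_apply] using this
    by_cases a : p ∈ I <;> by_cases b : p ∈ I' <;> by_cases c : p ∈ J <;> by_cases d : p ∈ J' <;>
      simp_all
  · rintro ⟨rfl, rfl⟩
    ext p
    simp only [wC', Finsupp.add_apply, ind_apply, Set.mem_ofPred_eq]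
    rcases near_inf_sup hP I I' p with ⟨h1, h2⟩ | ⟨h1, h2⟩
    · simp only [min_congr h1, min_congr h2]
    · simp only [min_congr h1, min_congr h2]
      exact add_comm _ _

end Three

/-- Let `P` be a finite disjoint union of chains, `K` a field, and let `K[Ω]` be a compatible algebra
with straightening laws on `J(P)` over `K`, given by monomials `w_I` in any set `V` of variables.
Then its straightening relations are those of `K[O(P)]`, of `K[C(P)]` and of `K[C(P*)]`. -/
theorem result (K : Type) [Field K] (P : Type) [PartialOrder P] [Fintype P]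
    (hP : IsUnionOfChains P) (V : Type) (w : LowerSet P → (V →₀ ℕ)) (hw : Compatible K w) :
    SameRelations K w (wO P) ∧ SameRelations K w (wC P) ∧ SameRelations K w (wC' P) :=
  ⟨same_of_hibi (hibi_of_compatible hP hw) hibi_O,
    same_of_hibi (hibi_of_compatible hP hw) (hibi_C hP),
    same_of_hibi (hibi_of_compatible hP hw) (hibi_C' hP)⟩

end Pool.Agent.Helper30K9.Withdrawn.UniqueCompatible
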